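import Pool.Agent.X145.DL.Exist

/-!
# MP_31dc4f_pr, Q1: the diagonal limit of products of projected Haar unitaries (full answer: true)

For every `τ > 0` the law `μ_τ` exists and is unique, and for all `L_N` with `L_N / N → τ`, all orthogonal
projections `P_N` of rank `N - 1` and independent Haar unitaries, the empirical law of the squared singular values of
`B_{L_N} = (P S_{L_N}) ⋯ (P S_1)` converges to `μ_τ` in probability.

Proof. With `1 - P = u u†` and `C = B B†`, one step multiplies `C` by `1 - v v†` on the left (up to conjugation), where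
`v = S† u` is a uniform unit vector independent of `C`; hence `tr C^p` changes by a polynomial in the quadratic
forms `v† C^a v`, `a ≤ p`. By the second moments of Haar unit vectors these are within `N^{-1/2}` of the normalised
traces in mean, so the normalised moments follow, by a discrete Gronwall inequality, a triangular system of ordinary
differential equations. That the explicit moments `m_p(τ)` solve this system is a pair of Abel type identities.
-/

set_option autoImplicit false

namespace Pool.Agent.Results.MP_31dc4f_pr.DiagonalLimit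

open Finset MeasureTheory Filter Topology Pool.Agent.X145.DL Pool.Agent.H667R2.FG

theorem result (τ : ℝ) (hτ : 0 < τ) :
    ∃ ν : Measure ℝ, IsMu τ ν ∧ (∀ ν' : Measure ℝ, IsMu τ ν' → ν' = ν) ∧
      ∀ L : ℕ → ℕ, Tendsto (fun N => (L N : ℝ) / N) atTop (𝓝 τ) →
      ∀ (Ω : ℕ → Type) [∀ N, MeasurableSpace (Ω N)] (μ : ∀ N, Measure (Ω N))
        (P : ∀ N, Matrix (Fin N) (Fin N) ℂ) (S : ∀ N, ℕ → Ω N → Matrix.unitaryGroup (Fin N) ℂ),
        (∀ N, 2 ≤ N → Model N (μ N) (P N) (S N)) →
        ∀ f : ℝ → ℝ, ContinuousOn f (Set.Icc 0 1) → ∀ ε : ℝ, 0 < ε →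
          Tendsto (fun N => μ N {ω | ε < |emp (prodB (P N) (fun i => S N i ω) (L N)) f - ∫ x, f x ∂ν|})
            atTop (𝓝 0) := by
  obtain ⟨ν, hν⟩ := exists_mu τ hτ
  refine ⟨ν, hν, fun ν' h' => unique_mu h' hν, ?_⟩
  intro L hL Ω _ μ P S h f hf ε hε
  exact conv_prob h hτ hL hν f hf ε hε

end Pool.Agent.Results.MP_31dc4f_pr.DiagonalLimit
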